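import Pool.Agent.Run7.h851.T.Iface
import Pool.Agent.H337R2.Crude2

/-!
# C3: the crude p-adic bound (project T; port of `Pool/Agent/Dim7/C3.lean`)
-/

open Polynomial Pool.Agent.H337R2

namespace Pool.Agent.Run7.h847.T.C3

open Pool.Agent.Run7.h851.T

noncomputable section

variable {p : ℕ} [hp : Fact p.Prime]

lemma fac_pos (N : ℕ) : 0 < padicNorm p ((N.factorial : ℕ) : ℚ) :=
  lt_of_le_of_ne (padicNorm.nonneg _)
    (Ne.symm (padicNorm.nonzero (by exact_mod_cast Nat.factorial_ne_zero _)))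

lemma up (k L : ℕ) : ∏ m ∈ Finset.Ico (k + 1) (k + 1 + L), padicNorm p ((m : ℚ) - k) =
    padicNorm p ((L.factorial : ℕ) : ℚ) := by
  induction L with
  | zero => simp
  | succ L ih =>
    rw [← add_assoc, Finset.prod_Ico_succ_top (by omega), ih, Nat.factorial_succ, Nat.cast_mul,
      padicNorm.mul, mul_comm]
    congr 2
    push_cast
    ring

lemma dn (A L : ℕ) : ∏ m ∈ Finset.Ico A (A + L), padicNorm p ((m : ℚ) - ((A + L : ℕ) : ℚ)) =
    padicNorm p ((L.factorial : ℕ) : ℚ) := by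
  rw [Finset.prod_Ico_eq_prod_range, Nat.add_sub_cancel_left, ← Finset.prod_range_reflect,
    ← Finset.prod_range_add_one_eq_factorial, Nat.cast_prod, padicNorm_prod']
  apply Finset.prod_congr rfl
  intro j hj
  rw [Finset.mem_range] at hj
  rw [← padicNorm.neg]
  congr 1
  rw [Nat.cast_add A (L - 1 - j), show L - 1 - j = L - (1 + j) by omega,
    Nat.cast_sub (by omega)]
  push_cast
  ring

/-- all differences in an interval containing `k` -/
lemma erase_Ico {a b k : ℕ} (h1 : a ≤ k) (h2 : k < b) :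
    ∏ m ∈ (Finset.Ico a b).erase k, padicNorm p ((m : ℚ) - k) =
      padicNorm p (((k - a).factorial : ℕ) : ℚ) * padicNorm p (((b - 1 - k).factorial : ℕ) : ℚ) := by
  have h3 : (Finset.Ico a b).erase k = Finset.Ico a k ∪ Finset.Ico (k + 1) b := by
    ext m
    simp only [Finset.mem_erase, Finset.mem_union, Finset.mem_Ico]
    omega
  have h4 : Disjoint (Finset.Ico a k) (Finset.Ico (k + 1) b) := by
    rw [Finset.disjoint_left]
    intro m h5 h6
    rw [Finset.mem_Ico] at h5 h6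
    omega
  rw [h3, Finset.prod_union h4]
  congr 1
  · have h5 := dn (p := p) a (k - a)
    rw [show a + (k - a) = k by omega] at h5
    exact h5
  · have h5 := up (p := p) k (b - 1 - k)
    rw [show k + 1 + (b - 1 - k) = b by omega] at h5
    exact h5

lemma erase_sM {n k : ℕ} (hk : k ∈ sM n) :
    ∏ m ∈ (sM n).erase k, padicNorm p ((m : ℚ) - k) =
      padicNorm p ((k.factorial : ℕ) : ℚ) * padicNorm p (((4 * n - k).factorial : ℕ) : ℚ) := by
  rw [sM, Finset.mem_Icc] at hk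
  have h1 : sM n = Finset.Ico 0 (4 * n + 1) := by
    ext m
    simp only [sM, Finset.mem_Icc, Finset.mem_Ico]
    omega
  rw [h1, erase_Ico hk.1 (by omega)]
  rw [show 4 * n + 1 - 1 - k = 4 * n - k by omega, Nat.sub_zero]

lemma binom {n k : ℕ} (hk : k ∈ sM n) :
    padicNorm p (((4 * n).factorial : ℕ) : ℚ) ≤
      padicNorm p ((k.factorial : ℕ) : ℚ) * padicNorm p (((4 * n - k).factorial : ℕ) : ℚ) := by
  rw [sM, Finset.mem_Icc] at hk
  have h1 : k + (4 * n - k) = 4 * n := by omega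
  have h2 := Nat.add_choose_mul_factorial_mul_factorial k (4 * n - k)
  rw [h1] at h2
  rw [← h2, Nat.cast_mul, Nat.cast_mul, padicNorm.mul, padicNorm.mul, mul_assoc]
  exact mul_le_of_le_one_left (mul_nonneg (padicNorm.nonneg _) (padicNorm.nonneg _))
    (padicNorm.of_nat _)

lemma PM_PB {n k : ℕ} (M : ℚ) (hM1 : 1 ≤ M) :
    PB p M (padicNorm p (((4 * n).factorial : ℕ) : ℚ) ^ 64) (TS (-(k : ℚ)) (PM n)) := by
  have hM0 : 0 ≤ M := by linarith
  have hG : 0 ≤ padicNorm p (((4 * n).factorial : ℕ) : ℚ) := padicNorm.nonneg _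
  unfold PM
  rw [map_mul, TS_C, TS_lin2]
  have h1 : PB p M (padicNorm p (((4 * n).factorial : ℕ) : ℚ) ^ 64) (PowerSeries.C (cM n)) := by
    apply PB.C hM0 (by positivity)
    rw [cM, padicNorm_pow']
  have h2 : PB p M 1 (PowerSeries.C 2 * PowerSeries.X + PowerSeries.C (2 * -(k : ℚ) + ((4 * n : ℕ) : ℚ))) := by
    apply PB.lin hM0 zero_le_one
    · have := padicNorm.of_int (p := p) ((4 * n : ℕ) - 2 * k : ℤ)
      push_cast at this ⊢
      rw [show (2 : ℚ) * -(k : ℚ) + 4 * n = 4 * n - 2 * k by ring]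
      exact this
    · rw [one_mul]
      have := padicNorm.of_int (p := p) 2
      push_cast at this
      exact this.trans hM1
  have h7 := PB.mul hM0 (by positivity) zero_le_one h1 h2
  rw [mul_one] at h7
  exact h7

lemma pa_le {n : ℕ} (E : ℚ[X]) (A : ℚ) (hA : 0 ≤ A) {k : ℕ} (hk : k ∈ sM n)
    (hE : PB p ((144 * n + 1 : ℕ) : ℚ) A (TS (-(k : ℚ)) E)) (i : ℕ) :
    padicNorm p (pa (sM n) mM (PM n * E) k i) ≤ ((144 * n + 1 : ℕ) : ℚ) ^ 72 * A := by
  set M : ℚ := ((144 * n + 1 : ℕ) : ℚ) with hM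
  have hM1 : 1 ≤ M := by rw [hM]; exact_mod_cast (by omega : 1 ≤ 144 * n + 1)
  have hM0 : (0 : ℚ) ≤ M := by linarith
  have hM6 : ((4 * n : ℕ) : ℚ) ≤ M := by rw [hM]; exact_mod_cast (by omega : 4 * n ≤ 144 * n + 1)
  have hk' := hk
  rw [sM, Finset.mem_Icc] at hk'
  unfold pa
  split_ifs with hi
  · have hB0 : 0 ≤ padicNorm p (((4 * n).factorial : ℕ) : ℚ) ^ 64 :=
      pow_nonneg (padicNorm.nonneg _) _
    have hPB : PB p M (padicNorm p (((4 * n).factorial : ℕ) : ℚ) ^ 64 * A)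
        (TS (-(k : ℚ)) (PM n * E)) := by
      rw [map_mul]
      exact PB.mul hM0 hB0 hA (PM_PB M hM1) hE
    have h1 := pfc_bound (p := p) (sM n) mM (PM n * E) k M _
      (fun m => (padicNorm p ((m : ℚ) - k))⁻¹) hM0 (mul_nonneg hB0 hA) hPB
      (by
        intro m hm _
        have hmk := Finset.ne_of_mem_erase hm
        have hm2 := Finset.mem_of_mem_erase hm
        rw [sM, Finset.mem_Icc] at hm2
        refine ⟨le_rfl, ?_⟩
        have h3 := norm_inv_le (p := p) (a := (m : ℤ) - k) (by omega) (M := M) (by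
          push_cast
          have h5 : (m : ℚ) ≤ ((4 * n : ℕ) : ℚ) := by exact_mod_cast (by omega : m ≤ 4 * n)
          have h6 : (k : ℚ) ≤ ((4 * n : ℕ) : ℚ) := by exact_mod_cast (by omega : k ≤ 4 * n)
          have h7 : (0 : ℚ) ≤ m := by positivity
          have h8 : (0 : ℚ) ≤ k := by positivity
          rw [abs_le]
          constructor <;> linarith)
        push_cast at h3
        exact h3)
      (fun m _ => inv_nonneg.2 (padicNorm.nonneg _)) (mM k - i)
    refine h1.trans ?_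
    have h4 : ∏ m ∈ (sM n).erase k, (padicNorm p ((m : ℚ) - k))⁻¹ ^ mM m =
        ((padicNorm p ((k.factorial : ℕ) : ℚ) *
          padicNorm p (((4 * n - k).factorial : ℕ) : ℚ))⁻¹) ^ 64 := by
      rw [← erase_sM (p := p) hk, ← Finset.prod_inv_distrib, Finset.prod_pow]
    rw [h4]
    have h5 := binom (p := p) hk
    have hpos : 0 < padicNorm p ((k.factorial : ℕ) : ℚ) *
        padicNorm p (((4 * n - k).factorial : ℕ) : ℚ) := mul_pos (fac_pos _) (fac_pos _)
    have h6 : padicNorm p (((4 * n).factorial : ℕ) : ℚ) *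
        (padicNorm p ((k.factorial : ℕ) : ℚ) *
          padicNorm p (((4 * n - k).factorial : ℕ) : ℚ))⁻¹ ≤ 1 := by
      rw [← div_eq_mul_inv, div_le_one hpos]
      exact h5
    have h7 : M ^ (mM k - i) ≤ M ^ 72 := by
      refine pow_le_pow_right₀ hM1 ?_
      have : mM k - i ≤ 64 := Nat.sub_le _ _
      omega
    have h8 : (padicNorm p (((4 * n).factorial : ℕ) : ℚ) *
        (padicNorm p ((k.factorial : ℕ) : ℚ) *
          padicNorm p (((4 * n - k).factorial : ℕ) : ℚ))⁻¹) ^ 64 ≤ 1 :=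
      pow_le_one₀ (mul_nonneg (padicNorm.nonneg _) (inv_nonneg.2 hpos.le)) h6
    calc _ = (padicNorm p (((4 * n).factorial : ℕ) : ℚ) *
        (padicNorm p ((k.factorial : ℕ) : ℚ) *
          padicNorm p (((4 * n - k).factorial : ℕ) : ℚ))⁻¹) ^ 64 * (M ^ (mM k - i) * A) := by
          rw [mul_pow]; ring
      _ ≤ 1 * (M ^ 72 * A) := by
          apply mul_le_mul h8 (mul_le_mul_of_nonneg_right h7 hA) (by positivity) zero_le_one
      _ = M ^ 72 * A := one_mul _
  · rw [padicNorm.zero]; positivity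

lemma rho_le {n : ℕ} (E : ℚ[X]) (A : ℚ) (hA : 0 ≤ A)
    (hE : ∀ k ∈ sM n, PB p ((144 * n + 1 : ℕ) : ℚ) A (TS (-(k : ℚ)) E)) (i : ℕ) :
    padicNorm p (rho n (PM n * E) i) ≤ ((144 * n + 1 : ℕ) : ℚ) ^ 72 * A := by
  unfold rho
  apply padicNorm.sum_le' _ (by positivity)
  intro k hk
  exact pa_le E A hA hk (hE k hk) i

lemma aux (x y z M A : ℚ) (hM : 0 ≤ M) (hA : 0 ≤ A) (hx0 : 0 ≤ x) (hx : x ≤ 1) (hy0 : 0 ≤ y)
    (hy : y ≤ M ^ 72 * A) (hz0 : 0 ≤ z) (hz : z ≤ M ^ 72) : x * (y * z) ≤ M ^ 144 * A := by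
  have h1 : y * z ≤ (M ^ 72 * A) * M ^ 72 := mul_le_mul hy hz hz0 (by positivity)
  have h2 : 0 ≤ y * z := mul_nonneg hy0 hz0
  calc x * (y * z) ≤ 1 * (y * z) := mul_le_mul_of_nonneg_right hx h2
    _ = y * z := one_mul _
    _ ≤ (M ^ 72 * A) * M ^ 72 := h1
    _ = M ^ 144 * A := by ring

end

end Pool.Agent.Run7.h847.T.C3

namespace Pool.Agent.Run7.h847.T

open Pool.Agent.Run7.h851.T Pool.Agent.Run7.h847.T.C3

theorem C3_crude : St_C3_crude := by
  intro n p _ hn q u hu E A hA hE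
  obtain ⟨hq, hu⟩ := hu
  set M : ℚ := ((144 * n + 1 : ℕ) : ℚ) with hM
  have hM1 : 1 ≤ M := by rw [hM]; exact_mod_cast (by omega : 1 ≤ 144 * n + 1)
  have hM0 : (0 : ℚ) ≤ M := by linarith
  have hW : 0 ≤ M ^ 144 * A := by positivity
  have h20 : M ^ 72 * A ≤ M ^ 144 * A :=
    mul_le_mul_of_nonneg_right (pow_le_pow_right₀ hM1 (by norm_num)) hA
  have hui : ∀ i, padicNorm p ((q : ℚ) * u i) ≤ 1 := by
    intro i
    obtain ⟨z, hz⟩ := hu i
    rw [hz]; exact padicNorm.of_int z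
  have hru : ∀ i, padicNorm p (rho n (PM n * E) i * ((q : ℚ) * u i)) ≤ M ^ 144 * A := by
    intro i
    rw [padicNorm.mul]
    calc _ ≤ padicNorm p (rho n (PM n * E) i) * 1 :=
          mul_le_mul_of_nonneg_left (hui i) (padicNorm.nonneg _)
      _ ≤ _ := by rw [mul_one]; exact (rho_le E A hA hE i).trans h20
  constructor
  · unfold xa
    rw [Finset.mul_sum]
    apply padicNorm.sum_le' _ hW
    intro i hi
    rw [Finset.mem_Icc] at hi
    have e : (q : ℚ) * (rho n (PM n * E) i * u i - ∑ k ∈ sM n, pa (sM n) mM (PM n * E) k i * hs i k)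
        = rho n (PM n * E) i * ((q : ℚ) * u i) -
          ∑ k ∈ sM n, (q : ℚ) * (pa (sM n) mM (PM n * E) k i * hs i k) := by
      rw [← Finset.mul_sum]; ring
    rw [e]
    refine padicNorm.sub.trans (max_le (hru i) ?_)
    apply padicNorm.sum_le' _ hW
    intro k hk
    have hk' := hk
    rw [sM, Finset.mem_Icc] at hk'
    rw [padicNorm.mul, padicNorm.mul]
    have g1 := pa_le (p := p) E A hA hk (hE k hk) i
    have g2 : padicNorm p (hs i k) ≤ M ^ 72 := by
      have := hs_norm_crude (p := p) i k M (by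
        rw [hM]; exact_mod_cast (by omega : k ≤ 144 * n + 1)) hM1
      exact this.trans (pow_le_pow_right₀ hM1 (hi.2.trans (by norm_num)))
    exact aux _ _ _ M A hM0 hA (padicNorm.nonneg _) (padicNorm.of_nat q) (padicNorm.nonneg _) g1
      (padicNorm.nonneg _) g2
  · unfold xb
    rw [Finset.mul_sum]
    apply padicNorm.sum_le' _ hW
    intro i _
    have e : (q : ℚ) * (rho n (PM n * E) i * u i) = rho n (PM n * E) i * ((q : ℚ) * u i) := by ring
    rw [e]
    exact hru i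

end Pool.Agent.Run7.h847.T
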