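import Pool.Agent.Run7.h851.T.Iface
import Pool.Agent.H337R2.LZ.G5

/-!
# G5: the saturated part of the energy (project T; port of `Pool/Agent/Dim7/G5.lean`)
-/

open Polynomial Pool.Agent.H337R2

namespace Pool.Agent.Run7.h847.T

open Pool.Agent.Run7.h851.T

noncomputable section

namespace G5

open Finset Pool.Agent.LZ.G5

lemma lf_nonneg (m : ℕ) : 0 ≤ lf m := by
  unfold lf
  exact Real.log_nonneg (by exact_mod_cast Nat.succ_le_of_lt m.factorial_pos)

lemma SF_succ (m : ℕ) : SF (m + 1) = SF m + lf m := by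
  unfold SF
  rw [Finset.sum_range_succ]

lemma sum_sh (a m : ℕ) : ∑ t ∈ range m, lf (a + t) = SF (a + m) - SF a := by
  have h := Finset.sum_range_add lf a m
  unfold SF
  rw [h, add_sub_cancel_left]

lemma lf_up (a m : ℕ) : ∑ t ∈ range m, Real.log ((a : ℝ) + 1 + (t : ℝ)) = lf (a + m) - lf a := by
  induction m with
  | zero => simp
  | succ m ih =>
    rw [Finset.sum_range_succ, ih, ← Nat.add_assoc, lf_succ]
    push_cast
    rw [show (a : ℝ) + 1 + m = a + m + 1 by ring]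
    ring

lemma nd_sat {n i : ℕ} (hi : i < 20 * n - 1) : nd n i = 1000 * (2 * n + 1 + i) := by
  unfold nd
  rw [if_pos hi]

lemma Lp_sat {n i : ℕ} (hi : i < 20 * n - 1) :
    Lp n (range (20 * n - 1)) (1000 * (2 * n + 1 + i)) =
      lf i + lf (20 * n - 1 - 1 - i) + (lf (24 * n + i) - lf (4 * n + 1 + i)) := by
  unfold Lp
  have h := lf_row i (20 * n - 1 - 1 - i)
  rw [show i + 1 + (20 * n - 1 - 1 - i) = 20 * n - 1 by omega] at h
  have h2 := lf_up (4 * n + 1 + i) (20 * n - 1)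
  rw [show 4 * n + 1 + i + (20 * n - 1) = 24 * n + i by omega] at h2
  rw [← h, ← h2, ← Finset.sum_add_distrib]
  apply Finset.sum_congr rfl
  intro j hj
  rw [nd_sat (Finset.mem_range.1 hj)]
  congr 1
  · congr 1
    push_cast
    ring
  · congr 1
    push_cast
    ring

lemma log_wv (n i : ℕ) : Real.log (wv n (2 * n + 1 + i)) =
    64 * lf (4 * n) + (Real.log (2 * ((2 * n + 1 + i : ℕ) : ℝ)) +
      256 * Real.log ((2 * n + 1 + i : ℕ) : ℝ)) + 64 * (lf i - lf (4 * n + 1 + i)) := by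
  unfold wv
  rw [show 2 * n + 1 + i + 2 * n = 4 * n + 1 + i by omega,
    show 2 * n + 1 + i - 2 * n - 1 = i by omega]
  unfold lf
  have p : ∀ m : ℕ, ((m.factorial : ℕ) : ℝ) ≠ 0 := fun m => by positivity
  have pv : ((2 * n + 1 + i : ℕ) : ℝ) ≠ 0 := by positivity
  have p2v : 2 * ((2 * n + 1 + i : ℕ) : ℝ) ≠ 0 := by positivity
  have q1 : ((4 * n).factorial : ℝ) ^ 64 ≠ 0 := pow_ne_zero _ (p _)
  have q5 : ((i.factorial : ℝ) / ((4 * n + 1 + i).factorial : ℝ)) ^ 64 ≠ 0 :=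
    pow_ne_zero _ (div_ne_zero (p _) (p _))
  have q6 : (((2 * n + 1 + i : ℕ) : ℝ)) ^ 256 ≠ 0 := pow_ne_zero _ pv
  rw [Real.log_mul (mul_ne_zero (mul_ne_zero q1 p2v) q5) q6,
    Real.log_mul (mul_ne_zero q1 p2v) q5, Real.log_mul q1 p2v,
    Real.log_pow, Real.log_pow, Real.log_pow, Real.log_div (p _) (p _)]
  push_cast
  ring

lemma log_bd' {n : ℕ} (hn : 40 ≤ n) {a : ℕ} (ha : a ≤ 50) :
    Real.log (2 * ((a * n : ℕ) : ℝ) + 2) ≤ 7 * Real.log n := by
  have hn' : (40 : ℝ) ≤ n := by exact_mod_cast hn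
  have ha' : (a : ℝ) ≤ 50 := by exact_mod_cast ha
  have h1 : 2 * ((a * n : ℕ) : ℝ) + 2 ≤ (n : ℝ) ^ 7 := by
    push_cast
    have h2 : (a : ℝ) * n ≤ 50 * n := mul_le_mul_of_nonneg_right ha' (by positivity)
    have h3 : (40 : ℝ) ^ 6 ≤ (n : ℝ) ^ 6 := by gcongr
    have h4 : (n : ℝ) ^ 7 = n ^ 6 * n := by ring
    rw [h4]
    nlinarith
  rw [show (7 : ℝ) * Real.log n = Real.log ((n : ℝ) ^ 7) by rw [Real.log_pow]; norm_num]
  exact Real.log_le_log (by positivity) h1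

lemma lf_an' {n : ℕ} (hn : 40 ≤ n) {a : ℕ} (ha : a ≤ 50) :
    |lf (a * n) - (n * Psi a + a * n * Real.log n)| ≤ 34 * Real.log n := by
  have h := lf_stir (a * n)
  have hn0 : (0 : ℝ) < n := by positivity
  have e : Psi ((a * n : ℕ) : ℝ) = n * Psi a + a * n * Real.log n := by
    rw [Nat.cast_mul, Psi_sc hn0]
  rw [e] at h
  have h1 := log_bd' hn ha
  have h2 := one_bd (show 2 ≤ n by omega)
  linarith

lemma SF_an' {n : ℕ} (hn : 40 ≤ n) {a : ℕ} (ha : a ≤ 50) :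
    |SF (a * n) - (n ^ 2 * Pool.Agent.LZ.GG a + (a : ℝ) ^ 2 / 2 * n ^ 2 * Real.log n)| ≤
      2250 * (n * Real.log n) := by
  have h := SF_bound (a * n)
  have hn0 : (0 : ℝ) < n := by positivity
  have e : Pool.Agent.LZ.GG ((a * n : ℕ) : ℝ) =
      n ^ 2 * Pool.Agent.LZ.GG a + (a : ℝ) ^ 2 / 2 * n ^ 2 * Real.log n := by
    rw [Nat.cast_mul, GG_sc hn0]
  rw [e] at h
  refine h.trans ?_
  have h1 := log_bd' hn ha
  have h2 := one_bd (show 2 ≤ n by omega)
  have ha' : (a : ℝ) ≤ 50 := by exact_mod_cast ha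
  have h3 : ((a * n : ℕ) : ℝ) ≤ 50 * n := by
    push_cast
    exact mul_le_mul_of_nonneg_right ha' hn0.le
  have h4 : 5 * Real.log (2 * ((a * n : ℕ) : ℝ) + 2) + 5 ≤ 45 * Real.log n := by linarith
  have h5 : 0 ≤ 45 * Real.log n := by linarith
  calc ((a * n : ℕ) : ℝ) * (5 * Real.log (2 * ((a * n : ℕ) : ℝ) + 2) + 5)
      ≤ ((a * n : ℕ) : ℝ) * (45 * Real.log n) := mul_le_mul_of_nonneg_left h4 (by positivity)
    _ ≤ 50 * n * (45 * Real.log n) := mul_le_mul_of_nonneg_right h3 h5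
    _ = 2250 * (n * Real.log n) := by ring

/-- the sum in terms of superfactorials -/
lemma sum_eq (n : ℕ) (hn : 40 ≤ n) : ∑ i ∈ Finset.range (20 * n - 1), (Real.log (wv n (2 * n + 1 + i)) +
        Lp n (Finset.range (20 * n - 1)) (1000 * (2 * n + 1 + i))) =
      ((20 * n - 1 : ℕ) : ℝ) * (64 * lf (4 * n)) +
      ∑ i ∈ Finset.range (20 * n - 1), (Real.log (2 * ((2 * n + 1 + i : ℕ) : ℝ)) +
        256 * Real.log ((2 * n + 1 + i : ℕ) : ℝ)) +
      (65 * SF (20 * n - 1) - 65 * (SF (24 * n) - SF (4 * n + 1)) +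
        SF (20 * n - 1) + (SF (44 * n - 1) - SF (24 * n))) := by
  have h1 : ∀ i ∈ Finset.range (20 * n - 1), (Real.log (wv n (2 * n + 1 + i)) +
      Lp n (Finset.range (20 * n - 1)) (1000 * (2 * n + 1 + i))) =
      64 * lf (4 * n) + (Real.log (2 * ((2 * n + 1 + i : ℕ) : ℝ)) +
      256 * Real.log ((2 * n + 1 + i : ℕ) : ℝ)) + (65 * lf i -
      65 * lf (4 * n + 1 + i) + lf (20 * n - 1 - 1 - i) + lf (24 * n + i)) := by
    intro i hi
    rw [log_wv, Lp_sat (Finset.mem_range.1 hi)]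
    ring
  have h3 : ∑ i ∈ Finset.range (20 * n - 1), (65 * lf i -
      65 * lf (4 * n + 1 + i) + lf (20 * n - 1 - 1 - i) + lf (24 * n + i)) =
      (65 * SF (20 * n - 1) - 65 * (SF (24 * n) - SF (4 * n + 1)) +
        SF (20 * n - 1) + (SF (44 * n - 1) - SF (24 * n))) := by
    have e3 : 4 * n + 1 + (20 * n - 1) = 24 * n := by omega
    have e5 : 24 * n + (20 * n - 1) = 44 * n - 1 := by omega
    rw [Finset.sum_add_distrib, Finset.sum_add_distrib, Finset.sum_sub_distrib,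
      ← Finset.mul_sum, ← Finset.mul_sum,
      sum_sh, sum_sh, Finset.sum_range_reflect lf, e3, e5]
    rfl
  rw [Finset.sum_congr rfl h1, Finset.sum_add_distrib, h3, Finset.sum_add_distrib,
    Finset.sum_const, Finset.card_range, nsmul_eq_mul]

lemma GG_neg (x : ℝ) : Pool.Agent.LZ.GG (-x) = Pool.Agent.LZ.GG x := by
  unfold Pool.Agent.LZ.GG
  rw [Real.log_neg_eq_log]
  ring

lemma GG_zero : Pool.Agent.LZ.GG 0 = 0 := by unfold Pool.Agent.LZ.GG; simp

lemma GG_1000 (x : ℝ) :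
    Pool.Agent.LZ.GG (x * 1000) = 1000000 * Pool.Agent.LZ.GG x + 500000 * x ^ 2 * Real.log 1000 := by
  rw [GG_sc (n := 1000) (by norm_num)]
  ring

/-- mutual energy of two saturated bricks -/
lemma en_sat {g h : ℕ} (hg : g < 20) (hh : h < 20) : en g h =
    (((GG (((g : ℝ) - h + 1) * 1000) - GG (((g : ℝ) - h) * 1000)) -
      (GG (((g : ℝ) - h) * 1000) - GG (((g : ℝ) - h - 1) * 1000))) +
    ((GG (((g : ℝ) + h + 6) * 1000) - GG (((g : ℝ) + h + 5) * 1000)) -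
      (GG (((g : ℝ) + h + 5) * 1000) - GG (((g : ℝ) + h + 4) * 1000)))) / 1000000 - 2 * Real.log 1000 := by
  have b1 : ((bb g : ℤ) : ℝ) = 2000 + 1000 * (g : ℝ) := by
    unfold bb; rw [if_pos hg]; push_cast; ring
  have b2 : ((bb h : ℤ) : ℝ) = 2000 + 1000 * (h : ℝ) := by
    unfold bb; rw [if_pos hh]; push_cast; ring
  have c1 : ((cc g : ℕ) : ℝ) = 1000 := by
    unfold cc; rw [if_pos hg]; norm_num
  have c2 : ((cc h : ℕ) : ℝ) = 1000 := by
    unfold cc; rw [if_pos hh]; norm_num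
  unfold en
  rw [b1, b2, c1, c2]
  rw [show (2000 : ℝ) + 1000 * g + 1000 - (2000 + 1000 * h) = ((g : ℝ) - h + 1) * 1000 by ring,
    show ((g : ℝ) - h + 1) * 1000 - 1000 = ((g : ℝ) - h) * 1000 by ring,
    show (2000 : ℝ) + 1000 * g - (2000 + 1000 * h) = ((g : ℝ) - h) * 1000 by ring,
    show ((g : ℝ) - h) * 1000 - 1000 = ((g : ℝ) - h - 1) * 1000 by ring,
    show (2000 : ℝ) + 1000 * g + 1000 + (2000 + 1000 * h) + 1000 = ((g : ℝ) + h + 6) * 1000 by ring,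
    show (2000 : ℝ) + 1000 * g + 1000 + (2000 + 1000 * h) = ((g : ℝ) + h + 5) * 1000 by ring,
    show (2000 : ℝ) + 1000 * g + (2000 + 1000 * h) + 1000 = ((g : ℝ) + h + 5) * 1000 by ring,
    show (2000 : ℝ) + 1000 * g + (2000 + 1000 * h) = ((g : ℝ) + h + 4) * 1000 by ring]
  ring

/-- telescoping -/
lemma tel (f1 f2 f3 f4 e : ℕ → ℝ) (c : ℝ)
    (he : ∀ g ∈ Finset.range 20, e g = ((f1 (g + 1) - f1 g - (f2 (g + 1) - f2 g)) +
      (f3 (g + 1) - f3 g - (f4 (g + 1) - f4 g))) / 1000000 - c) :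
    ∑ g ∈ Finset.range 20, e g = ((f1 20 - f1 0 - (f2 20 - f2 0)) +
      (f3 20 - f3 0 - (f4 20 - f4 0))) / 1000000 - 20 * c := by
  have h1 := Finset.sum_range_sub f1 20
  have h2 := Finset.sum_range_sub f2 20
  have h3 := Finset.sum_range_sub f3 20
  have h4 := Finset.sum_range_sub f4 20
  rw [Finset.sum_congr rfl he, Finset.sum_sub_distrib, ← Finset.sum_div, Finset.sum_add_distrib,
    Finset.sum_sub_distrib (fun g => f1 (g + 1) - f1 g) (fun g => f2 (g + 1) - f2 g),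
    Finset.sum_sub_distrib (fun g => f3 (g + 1) - f3 g) (fun g => f4 (g + 1) - f4 g), h1, h2, h3, h4,
    Finset.sum_const, Finset.card_range, nsmul_eq_mul]
  norm_num

/-- telescoping in the second brick -/
lemma en_row {g : ℕ} (hg : g < 20) : ∑ h ∈ Finset.range 20, en g h =
    (((GG (((g : ℝ) + 1) * 1000) - GG ((g : ℝ) * 1000)) -
      (GG (((g : ℝ) - 19) * 1000) - GG (((g : ℝ) - 20) * 1000))) +
    ((GG (((g : ℝ) + 25) * 1000) - GG (((g : ℝ) + 24) * 1000)) -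
      (GG (((g : ℝ) + 5) * 1000) - GG (((g : ℝ) + 4) * 1000)))) / 1000000 - 40 * Real.log 1000 := by
  have h := tel (fun t : ℕ => GG (((g : ℝ) - t) * 1000)) (fun t : ℕ => GG (((g : ℝ) - t + 1) * 1000))
    (fun t : ℕ => GG (((g : ℝ) + t + 5) * 1000)) (fun t : ℕ => GG (((g : ℝ) + t + 4) * 1000))
    (fun h => en g h) (2 * Real.log 1000) (by
      intro h hh
      rw [en_sat hg (Finset.mem_range.1 hh)]
      push_cast
      rw [show (g : ℝ) - ((h : ℝ) + 1) + 1 = (g : ℝ) - h by ring,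
        show (g : ℝ) - ((h : ℝ) + 1) = (g : ℝ) - h - 1 by ring,
        show (g : ℝ) + ((h : ℝ) + 1) + 5 = (g : ℝ) + h + 6 by ring,
        show (g : ℝ) + ((h : ℝ) + 1) + 4 = (g : ℝ) + h + 5 by ring]
      ring)
  rw [h]
  push_cast
  rw [show (g : ℝ) - 0 + 1 = (g : ℝ) + 1 by ring, show (g : ℝ) - 0 = (g : ℝ) by ring,
    show (g : ℝ) - 20 + 1 = (g : ℝ) - 19 by ring,
    show (g : ℝ) + 20 + 5 = (g : ℝ) + 25 by ring,
    show (g : ℝ) + 20 + 4 = (g : ℝ) + 24 by ring,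
    show (g : ℝ) + 0 + 5 = (g : ℝ) + 5 by ring,
    show (g : ℝ) + 0 + 4 = (g : ℝ) + 4 by ring]
  ring

/-- the energy of the saturated bricks: uniform density on `[2, 22]` -/
lemma en_sum : ∑ g ∈ Finset.range 20, ∑ h ∈ Finset.range 20, en g h =
    2 * Pool.Agent.LZ.GG 20 + Pool.Agent.LZ.GG 44 - 2 * Pool.Agent.LZ.GG 24 + Pool.Agent.LZ.GG 4 := by
  have h := tel (fun t : ℕ => GG ((t : ℝ) * 1000)) (fun t : ℕ => GG (((t : ℝ) - 20) * 1000))
    (fun t : ℕ => GG (((t : ℝ) + 24) * 1000)) (fun t : ℕ => GG (((t : ℝ) + 4) * 1000))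
    (fun g => ∑ h ∈ Finset.range 20, en g h) (40 * Real.log 1000) (by
      intro g hg
      rw [en_row (Finset.mem_range.1 hg)]
      push_cast
      rw [show (g : ℝ) + 1 - 20 = (g : ℝ) - 19 by ring,
        show (g : ℝ) + 1 + 24 = (g : ℝ) + 25 by ring,
        show (g : ℝ) + 1 + 4 = (g : ℝ) + 5 by ring])
  rw [h]
  push_cast
  rw [show (20 : ℝ) - 20 = 0 by norm_num, show (0 : ℝ) - 20 = -20 by norm_num,
    show (20 : ℝ) + 24 = 44 by norm_num, show (0 : ℝ) + 24 = 24 by norm_num,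
    show (20 : ℝ) + 4 = 24 by norm_num, show (0 : ℝ) + 4 = 4 by norm_num]
  unfold GG
  rw [GG_1000 20, GG_1000 0, GG_1000 (-20), GG_1000 44, GG_1000 24, GG_1000 4, GG_neg, GG_zero]
  ring

lemma eS_eq : eS = 66 * Pool.Agent.LZ.GG 20 - 66 * Pool.Agent.LZ.GG 24 + 65 * Pool.Agent.LZ.GG 4 +
    Pool.Agent.LZ.GG 44 + 1280 * Psi 4 := by
  have i24 : Pool.Agent.LZ.GG 24000 = 1000000 * Pool.Agent.LZ.GG 24 + 500000 * 24 ^ 2 * Real.log 1000 := by
    rw [← GG_1000]; norm_num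
  have i4 : Pool.Agent.LZ.GG 4000 = 1000000 * Pool.Agent.LZ.GG 4 + 500000 * 4 ^ 2 * Real.log 1000 := by
    rw [← GG_1000]; norm_num
  have i20 : Pool.Agent.LZ.GG 20000 = 1000000 * Pool.Agent.LZ.GG 20 + 500000 * 20 ^ 2 * Real.log 1000 := by
    rw [← GG_1000]; norm_num
  have h4 : Real.log 4 = 2 * Real.log 2 := by
    rw [show (4 : ℝ) = 2 ^ 2 by norm_num, Real.log_pow]; norm_num
  have h1000 : Real.log 1000 = 3 * Real.log 2 + 3 * Real.log 5 := by
    rw [show (1000 : ℝ) = 2 ^ 3 * 5 ^ 3 by norm_num, Real.log_mul (by norm_num) (by norm_num),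
      Real.log_pow, Real.log_pow]
    norm_num
  unfold eS iphi GG
  rw [en_sum, i24, i4, i20, GG_zero]
  unfold Psi
  rw [h1000, h4]
  ring

/-- the logarithms -/
lemma logs_le {n : ℕ} (hn : 40 ≤ n) : ∑ i ∈ Finset.range (20 * n - 1),
    (Real.log (2 * ((2 * n + 1 + i : ℕ) : ℝ)) + 256 * Real.log ((2 * n + 1 + i : ℕ) : ℝ)) ≤
      35980 * (n * Real.log n) := by
  have hL1 := one_bd (show 2 ≤ n by omega)
  have h1 : ∀ i ∈ Finset.range (20 * n - 1), (Real.log (2 * ((2 * n + 1 + i : ℕ) : ℝ)) +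
      256 * Real.log ((2 * n + 1 + i : ℕ) : ℝ)) ≤ 1799 * Real.log n := by
    intro i hi
    have hi' := Finset.mem_range.1 hi
    have b1 := log_bd' hn (a := 22) (by norm_num)
    have hle : ((2 * n + 1 + i : ℕ) : ℝ) ≤ ((22 * n : ℕ) : ℝ) := by
      exact_mod_cast (by omega : 2 * n + 1 + i ≤ 22 * n)
    have hpos : (0 : ℝ) < ((2 * n + 1 + i : ℕ) : ℝ) := by positivity
    have c1 : Real.log (2 * ((2 * n + 1 + i : ℕ) : ℝ)) ≤ 7 * Real.log n :=
      (Real.log_le_log (by positivity) (by linarith only [hle])).trans b1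
    have c2 : Real.log ((2 * n + 1 + i : ℕ) : ℝ) ≤ 7 * Real.log n :=
      (Real.log_le_log (by positivity) (by linarith only [hle, hpos])).trans b1
    linarith only [c1, c2]
  refine (Finset.sum_le_sum h1).trans ?_
  rw [Finset.sum_const, Finset.card_range, nsmul_eq_mul]
  have h2 : ((20 * n - 1 : ℕ) : ℝ) ≤ 20 * n := by
    exact_mod_cast (by omega : 20 * n - 1 ≤ 20 * n)
  have h3 := mul_le_mul_of_nonneg_right h2 (show 0 ≤ 1799 * Real.log n by linarith only [hL1])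
  linarith only [h3]

lemma Psi_le {x : ℝ} (hx1 : 1 ≤ x) (hx : x ≤ 13) : Psi x ≤ 156 := by
  unfold Psi
  have h1 : Real.log x ≤ x - 1 := Real.log_le_sub_one_of_pos (by linarith)
  have h2 : 0 ≤ Real.log x := Real.log_nonneg hx1
  have h3 : x * Real.log x ≤ 13 * (x - 1) := mul_le_mul hx h1 h2 (by norm_num)
  linarith only [h3, hx, hx1]

lemma lf_le {n : ℕ} (hn : 40 ≤ n) {a : ℕ} (h1 : 1 ≤ a) (ha : a ≤ 13) :
    lf (a * n) ≤ 400 * (n * Real.log n) := by
  have h := (abs_le.1 (lf_an' hn (a := a) (by omega))).2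
  have hn6 : (6 : ℝ) ≤ n := by exact_mod_cast (by omega : 6 ≤ n)
  have hL1 := one_bd (show 2 ≤ n by omega)
  have ha1 : (1 : ℝ) ≤ a := by exact_mod_cast h1
  have ha2 : (a : ℝ) ≤ 13 := by exact_mod_cast ha
  have hP := Psi_le ha1 ha2
  have hL : 0 ≤ Real.log n := by linarith only [hL1]
  have hnL : 0 ≤ (n : ℝ) * Real.log n := mul_nonneg (by linarith only [hn6]) hL
  have e1 : (n : ℝ) * Psi a ≤ n * 156 := mul_le_mul_of_nonneg_left hP (by linarith only [hn6])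
  have e2 : (n : ℝ) * 1 ≤ n * (2 * Real.log n) := mul_le_mul_of_nonneg_left hL1 (by linarith only [hn6])
  have e3 : (a : ℝ) * (n * Real.log n) ≤ 13 * (n * Real.log n) := mul_le_mul_of_nonneg_right ha2 hnL
  have e4 : 6 * Real.log n ≤ n * Real.log n := mul_le_mul_of_nonneg_right hn6 hL
  have e5 : (a : ℝ) * n * Real.log n = a * (n * Real.log n) := by ring
  rw [e5] at h
  linarith only [h, e1, e2, e3, e4, hnL, hL]

lemma fin_le {n : ℕ} (hn : 40 ≤ n) :
    ((20 * n - 1 : ℕ) : ℝ) * (64 * lf (4 * n)) ≤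
      20 * n * (64 * Psi 4) * n + 5120 * (n ^ 2 * Real.log n) + 43520 * (n * Real.log n) := by
  have l4 := (abs_le.1 (lf_an' hn (a := 4) (by norm_num))).2
  push_cast at l4
  have h4n := lf_nonneg (4 * n)
  have hcast : ((20 * n - 1 : ℕ) : ℝ) = 20 * n - 1 := by
    rw [Nat.cast_sub (by omega)]
    push_cast
    ring
  rw [hcast]
  have hlin : 64 * lf (4 * n) ≤ n * (64 * Psi 4) + 256 * (n * Real.log n) + 2176 * Real.log n := by
    linarith only [l4]
  have hlin2 := mul_le_mul_of_nonneg_left hlin (show (0 : ℝ) ≤ 20 * n by positivity)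
  have e : (20 * (n : ℝ) - 1) * (64 * lf (4 * n)) = 20 * n * (64 * lf (4 * n)) - 64 * lf (4 * n) := by ring
  have e' : 20 * (n : ℝ) * (n * (64 * Psi 4) + 256 * (n * Real.log n) + 2176 * Real.log n) =
    20 * n * (64 * Psi 4) * n + 5120 * (n ^ 2 * Real.log n) + 43520 * (n * Real.log n) := by ring
  rw [e]
  rw [e'] at hlin2
  linarith only [hlin2, h4n]

lemma SF_pred (m : ℕ) (hm : 1 ≤ m) : SF (m - 1) ≤ SF m := by
  have h := SF_succ (m - 1)
  rw [show m - 1 + 1 = m by omega] at h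
  linarith only [lf_nonneg (m - 1), h]

lemma SF_up {n : ℕ} (hn : 40 ≤ n) {a : ℕ} (ha : a ≤ 50) :
    SF (a * n) ≤ n ^ 2 * Pool.Agent.LZ.GG a + (a : ℝ) ^ 2 / 2 * (n ^ 2 * Real.log n) +
      2250 * (n * Real.log n) := by
  have h := (abs_le.1 (SF_an' hn ha)).2
  linarith only [h]

lemma SF_lo {n : ℕ} (hn : 40 ≤ n) {a : ℕ} (ha : a ≤ 50) :
    n ^ 2 * Pool.Agent.LZ.GG a + (a : ℝ) ^ 2 / 2 * (n ^ 2 * Real.log n) -
      2250 * (n * Real.log n) ≤ SF (a * n) := by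
  have h := (abs_le.1 (SF_an' hn ha)).1
  linarith only [h]

end G5

open G5 Pool.Agent.LZ.G5 in
/-- saturated part -/
theorem G5_sat : St_G5_sat := by
  refine ⟨1000000, by norm_num, fun n hn => ?_⟩
  rw [sum_eq n hn, eS_eq]
  have m20 := SF_pred (20 * n) (by omega)
  have m44 := SF_pred (44 * n) (by omega)
  have m4 : SF (4 * n + 1) = SF (4 * n) + lf (4 * n) := SF_succ _
  have b4 := lf_le hn (a := 4) (by norm_num) (by norm_num)
  have t4 := SF_up hn (a := 4) (by norm_num)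
  have t20 := SF_up hn (a := 20) (by norm_num)
  have t24 := SF_lo hn (a := 24) (by norm_num)
  have t44 := SF_up hn (a := 44) (by norm_num)
  push_cast at t4 t20 t24 t44
  have hlog := logs_le hn
  have hfin := fin_le hn
  have hnL : 0 ≤ (n : ℝ) * Real.log n := by
    have h1 : (0 : ℝ) ≤ n := by positivity
    have h2 := one_bd (show 2 ≤ n by omega)
    exact mul_nonneg h1 (by linarith only [h2])
  rw [m4]
  have eL : (1000000 : ℝ) * n * Real.log n = 1000000 * (n * Real.log n) := by ring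
  have eM : (800 : ℝ) * (n : ℝ) ^ 2 * Real.log n = 800 * (n ^ 2 * Real.log n) := by ring
  have eC : (66 * Pool.Agent.LZ.GG 20 - 66 * Pool.Agent.LZ.GG 24 + 65 * Pool.Agent.LZ.GG 4 +
    Pool.Agent.LZ.GG 44 + 1280 * Psi 4) * (n : ℝ) ^ 2 =
      66 * (n ^ 2 * Pool.Agent.LZ.GG 20) - 66 * (n ^ 2 * Pool.Agent.LZ.GG 24) +
      65 * (n ^ 2 * Pool.Agent.LZ.GG 4) + n ^ 2 * Pool.Agent.LZ.GG 44 +
      20 * n * (64 * Psi 4) * n := by ring
  rw [eC, eL, eM]
  clear eC eL eM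
  generalize (n : ℝ) ^ 2 * Real.log n = Q at *
  generalize (n : ℝ) * Real.log n = q at *
  generalize 20 * (n : ℝ) * (64 * Psi 4) * n = P at *
  linarith only [m20, m44, b4, t4, t20, t24, t44, hlog, hfin, hnL]

end

end Pool.Agent.Run7.h847.T
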